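import Pool.Agent.Lib.MP_1ef7cf_nt_g.Mg.G072

/-!
# Summary: real quadratic fields with a unit of norm `-1`, all moduli divisible by the primes above `2`
-/

open NumberField IsDedekindDomain IntermediateField

namespace Pool.Agent.STt

variable {K : Type*} [Field K] [NumberField K] [Algebra K ℝ] {σ₂ : K →+* ℝ} {e : (𝓞 K)ˣ}

theorem fin_sub (hK : Module.finrank ℚ K = 2) (hσ : σ₂ ≠ algebraMap K ℝ)
    (he : 0 < algebraMap K ℝ ((e : 𝓞 K) : K)) (hN : Algebra.norm ℤ (e : 𝓞 K) = -1)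
    {m : Ideal (𝓞 K)} (hm0 : m ≠ ⊥)
    (hm : ∀ v : HeightOneSpectrum (𝓞 K), (2 : 𝓞 K) ∈ v.asIdeal → v.asIdeal ∣ m)
    {H : IntermediateField K ℝ} {Art : ST.RayClassGroup σ₂ m ≃* (H ≃ₐ[K] H)}
    (hA : ST.IsRayClassField σ₂ m H Art) {L : IntermediateField K ℝ} (hLH : L ≤ H) (k : ℕ)
    (hL : L ≤ K⟮√(algebraMap K ℝ ((e : 𝓞 K) : K))⟯ ⊔ K⟮Real.cos (2 * Real.pi / 2 ^ k)⟯) :
    StarkRQ.StarkTateIn σ₂ m L := by
  obtain ⟨D⟩ := STg.exists_lemData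
  exact starkTateIn_general D (STg.fd_of_norm hK hσ he hN) hm hm0 hA k hLH hL

end Pool.Agent.STt
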