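import Pool.Agent.Lib.MP_1ef7cf_nt_c.Mg.G007
import Pool.Agent.Lib.MP_1ef7cf_nt.RQ
import Pool.Agent.Lib.MP_1ef7cf_nt_g.Mg.G023

/-!
# Elements of `K` with even valuations outside one prime, modulo squares
-/

set_option autoImplicit false

open NumberField IsDedekindDomain nonZeroDivisors

namespace Pool.Agent.STt

open Pool.Agent.ST Pool.Agent.STb

section dk

variable {K : Type*} [Field K] [NumberField K]

/-- the prime `p` as a nonzero ideal -/
def P0 (p : PrI K) : (Ideal (𝓞 K))⁰ := ⟨p.asIdeal, mem_nonZeroDivisors_of_ne_zero p.ne_bot⟩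

/-- the prime `p` as a fractional ideal -/
noncomputable def PF (p : PrI K) : (FI K)ˣ := FractionalIdeal.mk0 K (P0 p)

lemma PF_val (p : PrI K) : ((PF p : (FI K)ˣ) : FI K) = (p.asIdeal : FI K) := rfl

lemma mk_PF (p : PrI K) : ClassGroup.mk K (PF p) = ClassGroup.mk0 (P0 p) := ClassGroup.mk_mk0 K _

/-- a fractional ideal with even valuations is a square -/
lemma sqrt_ideal {I : FI K} (hI : I ≠ 0) (h : ∀ P : PrI K, Even (FractionalIdeal.count K P I)) :
    ∃ B : (FI K)ˣ, (B : FI K) ^ 2 = I := by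
  classical
  have hfin : {v : PrI K | FractionalIdeal.count K v I ≠ 0}.Finite := by
    have := FractionalIdeal.finite_factors (K := K) (R := 𝓞 K) I
    rwa [Filter.eventually_cofinite] at this
  set S := hfin.toFinset with hS
  have hprod : I = ∏ v ∈ S, (v.asIdeal : FI K) ^ FractionalIdeal.count K v I := by
    conv_lhs => rw [← FractionalIdeal.finprod_heightOneSpectrum_factorization' K hI]
    rw [finprod_eq_prod_of_mulSupport_subset]
    intro v hv
    rw [hS, Set.Finite.coe_toFinset]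
    intro h0
    rw [Function.mem_mulSupport, h0, zpow_zero] at hv
    exact hv rfl
  set B : FI K := ∏ v ∈ S, (v.asIdeal : FI K) ^ (FractionalIdeal.count K v I / 2) with hB
  have hB2 : B ^ 2 = I := by
    rw [hB, ← Finset.prod_pow]
    conv_rhs => rw [hprod]
    refine Finset.prod_congr rfl fun v _ => ?_
    rw [← zpow_natCast, ← zpow_mul]
    congr 1
    have h2 := Int.ediv_mul_cancel (h v).two_dvd
    exact_mod_cast h2
  have hB0 : B ≠ 0 := by
    intro h0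
    rw [h0] at hB2
    apply hI
    rw [← hB2]
    simp
  exact ⟨Units.mk0 B hB0, hB2⟩

lemma exists_out {p : PrI K} {x : K} (hx : x ≠ 0) (h : ∀ P : PrI K, P ≠ p → SqAt P x) :
    ∃ (a : ℤ) (B : (FI K)ˣ),
      FractionalIdeal.spanSingleton (𝓞 K)⁰ x = ((PF p ^ a * B ^ 2 : (FI K)ˣ) : FI K) := by
  have hx0 : FractionalIdeal.spanSingleton (𝓞 K)⁰ x ≠ 0 := by
    rwa [FractionalIdeal.spanSingleton_ne_zero_iff]
  set a := FractionalIdeal.count K p (FractionalIdeal.spanSingleton (𝓞 K)⁰ x) with ha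
  have hp0 : (p.asIdeal : FI K) ≠ 0 := (PF p).ne_zero
  have hpa : (p.asIdeal : FI K) ^ (-a) ≠ 0 := zpow_ne_zero _ hp0
  obtain ⟨B, hB⟩ := sqrt_ideal (I := FractionalIdeal.spanSingleton (𝓞 K)⁰ x * (p.asIdeal : FI K) ^ (-a))
    (mul_ne_zero hx0 hpa) (fun P => by
      rw [FractionalIdeal.count_mul K P hx0 hpa, FractionalIdeal.count_zpow]
      by_cases hP : P = p
      · subst hP
        rw [FractionalIdeal.count_self, ← ha]
        exact ⟨0, by ring⟩
      · rw [FractionalIdeal.count_maximal_coprime K P (Ne.symm hP), mul_zero, add_zero]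
        exact STc.even_count hx (h P hP))
  refine ⟨a, B, ?_⟩
  rw [Units.val_mul, Units.val_pow_eq_pow_val, hB, Units.val_zpow_eq_zpow_val, PF_val, mul_comm,
    mul_assoc, ← zpow_add₀ hp0, neg_add_cancel, zpow_zero, mul_one]

lemma span_of_mk {J : (FI K)ˣ} (h : ClassGroup.mk K J = 1) :
    ∃ c : K, c ≠ 0 ∧ (J : FI K) = FractionalIdeal.spanSingleton (𝓞 K)⁰ c := by
  rw [ClassGroup.mk_eq_one_iff, FractionalIdeal.isPrincipal_iff] at h
  obtain ⟨c, hc⟩ := h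
  refine ⟨c, ?_, hc⟩
  rintro rfl
  rw [FractionalIdeal.spanSingleton_zero] at hc
  exact J.ne_zero hc

lemma mk_of_span {J : (FI K)ˣ} {c : K} (h : (J : FI K) = FractionalIdeal.spanSingleton (𝓞 K)⁰ c) :
    ClassGroup.mk K J = 1 := by
  rw [ClassGroup.mk_eq_one_iff, FractionalIdeal.isPrincipal_iff]
  exact ⟨c, h⟩

lemma span_zpow (c : K) (i : ℤ) :
    (FractionalIdeal.spanSingleton (𝓞 K)⁰ c) ^ i = FractionalIdeal.spanSingleton (𝓞 K)⁰ (c ^ i) := by
  rcases Int.eq_nat_or_neg i with ⟨j, rfl | rfl⟩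
  · rw [zpow_natCast, zpow_natCast, FractionalIdeal.spanSingleton_pow]
  · rw [zpow_neg, zpow_neg, zpow_natCast, zpow_natCast, FractionalIdeal.spanSingleton_pow,
      FractionalIdeal.spanSingleton_inv]

/-- the elements with even valuations outside `p`, modulo squares -/
theorem exists_rep {p : PrI K} (hodd : Odd (Subgroup.zpowers (ClassGroup.mk0 (P0 p))).index) :
    ∃ ϖ : K, ϖ ≠ 0 ∧ ∀ x : K, x ≠ 0 → (∀ P : PrI K, P ≠ p → SqAt P x) →
      ∃ (u : (𝓞 K)ˣ) (i : ℤ) (s : K), s ≠ 0 ∧ x = ((u : 𝓞 K) : K) * ϖ ^ i * s ^ 2 := by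
  set g := ClassGroup.mk0 (P0 p) with hg
  set t := orderOf g with ht
  have h1 : ClassGroup.mk K (PF p ^ t) = 1 := by
    rw [map_pow, mk_PF, ← hg, ht, pow_orderOf_eq_one]
  obtain ⟨ϖ, hϖ0, hϖ⟩ := span_of_mk h1
  refine ⟨ϖ, hϖ0, fun x hx h => ?_⟩
  obtain ⟨a, B, hB⟩ := exists_out hx h
  set n := (Subgroup.zpowers g).index with hn
  obtain ⟨j, hj⟩ := Subgroup.mem_zpowers_iff.1
    (Subgroup.pow_index_mem (Subgroup.zpowers g) (ClassGroup.mk K B))
  rw [← hn] at hj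
  have h2 : ClassGroup.mk K (B ^ n * PF p ^ (-j)) = 1 := by
    rw [map_mul, map_pow, map_zpow, mk_PF, ← hg, ← hj, zpow_neg, mul_inv_cancel]
  obtain ⟨c, hc0, hc⟩ := span_of_mk h2
  set C : (FI K)ˣ := B ^ n * PF p ^ (-j) with hC
  have hBn : B ^ n = C * PF p ^ j := by
    rw [hC, mul_assoc, ← zpow_add, neg_add_cancel, zpow_zero, mul_one]
  have h3 : (PF p ^ a * B ^ 2) ^ n = PF p ^ (a * n + 2 * j) * C ^ 2 := by
    rw [mul_pow, ← pow_mul, mul_comm 2 n, pow_mul, hBn, mul_pow, ← zpow_natCast, ← zpow_mul,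
      ← zpow_natCast (PF p ^ j) 2, ← zpow_mul, mul_comm (C ^ 2), ← mul_assoc, ← zpow_add]
    congr 2
    push_cast
    ring
  have h4 : ClassGroup.mk K ((PF p ^ a * B ^ 2) ^ n) = 1 := by
    rw [map_pow, mk_of_span hB.symm, one_pow]
  have h5 : g ^ (a * n + 2 * j) = 1 := by
    rw [h3, map_mul, map_pow, h2, one_pow, mul_one, map_zpow, mk_PF] at h4
    exact h4
  obtain ⟨i, hi⟩ := orderOf_dvd_iff_zpow_eq_one.2 h5
  rw [← ht] at hi
  -- the elements
  have h6 : FractionalIdeal.spanSingleton (𝓞 K)⁰ (ϖ ^ i * c ^ 2) =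
      FractionalIdeal.spanSingleton (𝓞 K)⁰ (x ^ n) := by
    rw [← FractionalIdeal.spanSingleton_pow, hB, ← Units.val_pow_eq_pow_val, h3, hi, zpow_mul,
      zpow_natCast, Units.val_mul, Units.val_zpow_eq_zpow_val, hϖ, Units.val_pow_eq_pow_val, hc,
      span_zpow, FractionalIdeal.spanSingleton_pow,
      FractionalIdeal.spanSingleton_mul_spanSingleton]
  obtain ⟨u, hu⟩ := FractionalIdeal.spanSingleton_eq_spanSingleton.1 h6
  obtain ⟨r, hr⟩ := hodd
  refine ⟨u, i, c * (x ^ r)⁻¹, mul_ne_zero hc0 (inv_ne_zero (pow_ne_zero _ hx)), ?_⟩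
  rw [Units.smul_def, Algebra.smul_def] at hu
  have hx2 : x ^ n = x * (x ^ r) ^ 2 := by
    rw [hr, ← pow_mul]
    ring
  rw [hx2] at hu
  have hr0 : x ^ r ≠ 0 := pow_ne_zero _ hx
  have h7 : x = x * (x ^ r) ^ 2 * ((x ^ r)⁻¹) ^ 2 := by
    field_simp
  calc x = x * (x ^ r) ^ 2 * ((x ^ r)⁻¹) ^ 2 := h7
    _ = algebraMap (𝓞 K) K (u : 𝓞 K) * (ϖ ^ i * c ^ 2) * ((x ^ r)⁻¹) ^ 2 := by rw [hu]
    _ = _ := by ring

end dk

section rq

variable {K : Type*} [Field K] [NumberField K] [Algebra K ℝ] {σ₂ : K →+* ℝ} {e : (𝓞 K)ˣ}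

/-- totally positive units are squares -/
lemma unit_sq (F : STg.F.FD σ₂ e) {u : (𝓞 K)ˣ} (h1 : 0 < algebraMap K ℝ ((u : 𝓞 K) : K))
    (h2 : 0 < σ₂ ((u : 𝓞 K) : K)) : ∃ w : (𝓞 K)ˣ, u = w ^ 2 := by
  obtain ⟨ε₀, hε, -⟩ := exists_fund (K := K) F.deg
  let f : (𝓞 K)ˣ →* ℝ :=
    { toFun := fun v => algebraMap K ℝ ((v : 𝓞 K) : K) * σ₂ ((v : 𝓞 K) : K)
      map_one' := by simp
      map_mul' := fun v w => by
        simp only [Units.val_mul, map_mul]
        ring }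
  have hf : ∀ v : (𝓞 K)ˣ, f v = algebraMap K ℝ ((v : 𝓞 K) : K) * σ₂ ((v : 𝓞 K) : K) := fun _ => rfl
  have hneg : ∀ v : (𝓞 K)ˣ, f (-v) = f v := by
    intro v
    rw [hf, hf, Units.val_neg]
    simp only [map_neg]
    ring
  have hf0 : ∀ v : (𝓞 K)ˣ, f v ≠ 0 := by
    intro v h0
    have h3 : f (v * v⁻¹) = 1 := by rw [mul_inv_cancel, map_one]
    rw [map_mul, h0, zero_mul] at h3
    exact zero_ne_one h3
  have he : f e < 0 := by
    rw [hf, F.nrm, mul_neg, mul_inv_cancel₀ F.pos.ne']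
    norm_num
  have heven : ∀ k : ℤ, Even k → 0 < f (ε₀ ^ k) := by
    rintro k ⟨l, rfl⟩
    rw [zpow_add, map_mul]
    exact mul_self_pos.2 (hf0 _)
  have hε0 : f ε₀ < 0 := by
    by_contra hcon
    have hpos : 0 < f ε₀ := lt_of_le_of_ne (not_lt.1 hcon) (Ne.symm (hf0 _))
    have hall : ∀ k : ℤ, 0 < f (ε₀ ^ k) := by
      intro k
      rcases Int.even_or_odd k with hk | ⟨l, rfl⟩
      · exact heven k hk
      · rw [zpow_add, map_mul, zpow_one]
        exact mul_pos (heven _ (even_two_mul l)) hpos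
    obtain ⟨k, hk | hk⟩ := hε e
    · rw [hk] at he
      exact lt_asymm he (hall k)
    · rw [hk, hneg] at he
      exact lt_asymm he (hall k)
  have hodd : ∀ k : ℤ, 0 < f (ε₀ ^ k) → Even k := by
    intro k hk
    by_contra hcon
    rw [Int.not_even_iff_odd] at hcon
    obtain ⟨l, rfl⟩ := hcon
    rw [zpow_add, map_mul, zpow_one] at hk
    exact lt_asymm hk (mul_neg_of_pos_of_neg (heven _ (even_two_mul l)) hε0)
  have hu : 0 < f u := mul_pos h1 h2
  obtain ⟨k, hk | hk⟩ := hε u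
  · rw [hk] at hu
    obtain ⟨l, rfl⟩ := hodd k hu
    exact ⟨ε₀ ^ l, by rw [hk, zpow_add, pow_two]⟩
  · exfalso
    have hu2 := hu
    rw [hk, hneg] at hu2
    obtain ⟨l, rfl⟩ := hodd k hu2
    rw [hk, zpow_add, Units.val_neg, Units.val_mul] at h1
    simp only [map_neg, map_mul] at h1
    have h3 := mul_self_nonneg (algebraMap K ℝ (((ε₀ ^ l : (𝓞 K)ˣ) : 𝓞 K) : K))
    linarith

/-- **At most one quadratic extension.** -/
theorem isSquare_or (F : STg.F.FD σ₂ e) {p : PrI K}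
    (hodd : Odd (Subgroup.zpowers (ClassGroup.mk0 (P0 p))).index) {x y : K} (hx : x ≠ 0) (hy : y ≠ 0)
    (hx1 : 0 < algebraMap K ℝ x) (hx2 : 0 < σ₂ x) (hy1 : 0 < algebraMap K ℝ y) (hy2 : 0 < σ₂ y)
    (hxs : ∀ P : PrI K, P ≠ p → SqAt P x) (hys : ∀ P : PrI K, P ≠ p → SqAt P y) :
    IsSquare x ∨ IsSquare y ∨ IsSquare (x * y) := by
  obtain ⟨ϖ, hϖ0, h⟩ := exists_rep hodd
  have key : ∀ (z : K) (u : (𝓞 K)ˣ) (r : K), 0 < algebraMap K ℝ z → 0 < σ₂ z →
      z = ((u : 𝓞 K) : K) * r ^ 2 → IsSquare z := by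
    intro z u r h1 h2 hz
    have hr : r ≠ 0 := by
      rintro rfl
      rw [hz] at h1
      simp at h1
    have hr1 : 0 < (algebraMap K ℝ r) ^ 2 :=
      sq_pos_of_ne_zero ((map_ne_zero _).2 hr)
    have hr2 : 0 < (σ₂ r) ^ 2 := sq_pos_of_ne_zero ((map_ne_zero _).2 hr)
    rw [hz, map_mul, map_pow] at h1 h2
    have hu1 : 0 < algebraMap K ℝ ((u : 𝓞 K) : K) := pos_of_mul_pos_left h1 hr1.le
    have hu2 : 0 < σ₂ ((u : 𝓞 K) : K) := pos_of_mul_pos_left h2 hr2.le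
    obtain ⟨w, hw⟩ := unit_sq F hu1 hu2
    refine ⟨((w : 𝓞 K) : K) * r, ?_⟩
    rw [hz, hw]
    push_cast
    ring
  obtain ⟨u, i, s, hs, hxe⟩ := h x hx hxs
  obtain ⟨v, j, t, ht, hye⟩ := h y hy hys
  have hsplit : ∀ l : ℤ, Even l → ∃ r : K, ϖ ^ l = r ^ 2 := by
    rintro l ⟨m, rfl⟩
    exact ⟨ϖ ^ m, by rw [zpow_add₀ hϖ0, pow_two]⟩
  by_cases hi : Even i
  · left
    obtain ⟨r, hr⟩ := hsplit i hi
    refine key x u (r * s) hx1 hx2 ?_
    rw [hxe, hr]
    ring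
  · by_cases hj : Even j
    · right; left
      obtain ⟨r, hr⟩ := hsplit j hj
      refine key y v (r * t) hy1 hy2 ?_
      rw [hye, hr]
      ring
    · right; right
      have hij : Even (i + j) := by
        rw [Int.not_even_iff_odd] at hi hj
        exact hi.add_odd hj
      obtain ⟨r, hr⟩ := hsplit _ hij
      refine key (x * y) (u * v) (r * (s * t)) (by rw [map_mul]; exact mul_pos hx1 hy1)
        (by rw [map_mul]; exact mul_pos hx2 hy2) ?_
      rw [mul_pow, ← hr, zpow_add₀ hϖ0]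
      conv_lhs => rw [hxe, hye]
      push_cast
      ring

end rq

end Pool.Agent.STt
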