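import Pool.Agent.Lib.MP_1ef7cf_nt_t.U2
import Pool.Agent.Lib.MP_1ef7cf_nt_t.U3
import Pool.Agent.Lib.MP_1ef7cf_nt_b.Conj

/-!
# Quadratic characters of Galois groups of extensions which are unramified outside one prime
-/

set_option autoImplicit false

open NumberField IsDedekindDomain nonZeroDivisors IntermediateField

namespace Pool.Agent.STt

open Pool.Agent.ST Pool.Agent.STb

section eig

variable {K : Type*} [Field K] [Algebra K ℝ] {M : IntermediateField K ℝ}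

/-- eigenvectors for quadratic characters -/
lemma exists_eig [FiniteDimensional K M] (χ : (M ≃ₐ[K] M) →* ℤˣ) :
    ∃ y ∈ M, y ≠ 0 ∧ ∀ γ : M ≃ₐ[K] M, act γ y = (((χ γ : ℤˣ) : ℤ) : ℝ) * y := by
  classical
  have : Fintype (M ≃ₐ[K] M) := Fintype.ofFinite _
  have hli : LinearIndependent M (fun γ : M ≃ₐ[K] M => (fun z : M => γ z)) := by
    have h1 := linearIndependent_monoidHom M M
    have h2 := h1.comp (fun γ : M ≃ₐ[K] M => (((γ : M →ₐ[K] M) : M →+* M) : M →* M)) (by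
      intro a b hab
      ext z
      exact congrArg Subtype.val (DFunLike.congr_fun hab z))
    exact h2
  have hex : ∃ z : M, ∑ γ : M ≃ₐ[K] M, (((χ γ : ℤˣ) : ℤ) : M) * γ z ≠ 0 := by
    by_contra hcon
    push Not at hcon
    have h1 := Fintype.linearIndependent_iff.1 hli (fun γ => (((χ γ : ℤˣ) : ℤ) : M)) (by
      funext z
      have h2 := hcon z
      simpa [Finset.sum_apply] using h2) 1
    rw [map_one] at h1
    simp at h1
  obtain ⟨z, hz⟩ := hex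
  set w : M := ∑ γ : M ≃ₐ[K] M, (((χ γ : ℤˣ) : ℤ) : M) * γ z with hw
  refine ⟨(w : ℝ), w.2, fun h0 => hz (Subtype.ext h0), fun δ => ?_⟩
  rw [act_coe]
  have h1 : δ w = (((χ δ : ℤˣ) : ℤ) : M) * w := by
    rw [hw, map_sum, Finset.mul_sum]
    refine Fintype.sum_equiv (Equiv.mulLeft δ) _ _ fun γ => ?_
    rw [map_mul, map_intCast, Equiv.coe_mulLeft, map_mul, Units.val_mul, Int.cast_mul, ← mul_assoc,
      ← mul_assoc]
    have h2 : ((((χ δ : ℤˣ) : ℤ) : M)) * (((χ δ : ℤˣ) : ℤ) : M) = 1 := by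
      rw [← Int.cast_mul, ← Units.val_mul, Int.units_mul_self]
      simp
    rw [h2, one_mul]
    rfl
  rw [h1]
  simp

/-- the sign of an eigenvector whose square is a square in `K` -/
lemma eig_one {y : ℝ} (hy0 : y ≠ 0) {s : K} (hs : y ^ 2 = (algebraMap K ℝ s) ^ 2)
    {γ : M ≃ₐ[K] M} {ε : ℤˣ} (h : act γ y = ((ε : ℤ) : ℝ) * y) : ε = 1 := by
  have h1 : act γ y = y := by
    rcases sq_eq_sq_iff_eq_or_eq_neg.1 hs with h2 | h2
    · rw [h2, act_algebraMap]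
    · rw [h2, act_neg γ (M.algebraMap_mem s), act_algebraMap]
  rcases Int.units_eq_one_or ε with h2 | h2
  · exact h2
  · exfalso
    rw [h1, h2] at h
    push_cast at h
    apply hy0
    linarith

/-- the square of an eigenvector lies in `K` -/
lemma exists_sq [FiniteDimensional K M] [IsGalois K M] {y : ℝ} (hy : y ∈ M)
    {χ : (M ≃ₐ[K] M) →* ℤˣ} (h : ∀ γ : M ≃ₐ[K] M, act γ y = (((χ γ : ℤˣ) : ℤ) : ℝ) * y) :
    ∃ b : K, y ^ 2 = algebraMap K ℝ b := by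
  have h1 : y ^ 2 ∈ (⊥ : IntermediateField K ℝ) := by
    refine mem_of_fixed (bot_le) (pow_mem hy 2) fun γ _ => ?_
    rw [act_pow γ hy, h γ, mul_pow]
    have h2 : ((((χ γ : ℤˣ) : ℤ) : ℝ)) ^ 2 = 1 := by
      rw [pow_two, ← Int.cast_mul, ← Units.val_mul, Int.units_mul_self]
      simp
    rw [h2, one_mul]
  obtain ⟨b, hb⟩ := IntermediateField.mem_bot.1 h1
  exact ⟨b, hb.symm⟩

end eig

section uniq

variable {K : Type*} [Field K] [NumberField K] [Algebra K ℝ] {σ₂ : K →+* ℝ} {e : (𝓞 K)ˣ}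
  {M : IntermediateField K ℝ}

omit [NumberField K] in
/-- the square of an element which is fixed by the conjugation is positive at the second place -/
lemma sq_pos_of_fix [FiniteDimensional K M] {c : M ≃ₐ[K] M} (hc : IsConj σ₂ M c) {y : ℝ}
    (hy : y ∈ M) (hfix : act c y = y) {b : K} (hb0 : b ≠ 0) (hb : y ^ 2 = algebraMap K ℝ b) :
    0 < σ₂ b := by
  obtain ⟨g, hg⟩ := exists_over (H := M) σ₂
  have h3 := hc g hg _ hy
  rw [hfix] at h3
  have h4 : (emb g y).im = 0 := Complex.conj_eq_iff_im.1 h3.symm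
  have h5 : (emb g y) ^ 2 = ((σ₂ b : ℝ) : ℂ) := by
    rw [pow_two, ← emb_mul g hy hy, ← pow_two, hb, emb_of_mem g (M.algebraMap_mem _)]
    exact hg _
  have h6 : ((emb g y).re) ^ 2 = σ₂ b := by
    have h7 := congrArg Complex.re h5
    rw [pow_two, Complex.mul_re, h4, Complex.ofReal_re] at h7
    rw [← h7]
    ring
  have h7 : σ₂ b ≠ 0 := (map_ne_zero σ₂).2 hb0
  rw [← h6] at h7 ⊢
  exact lt_of_le_of_ne (sq_nonneg _) (Ne.symm h7)

/-- **At most one quadratic character.** -/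
theorem char_uniq (F : STg.F.FD σ₂ e) {p : PrI K}
    (hodd : Odd (Subgroup.zpowers (ClassGroup.mk0 (P0 p))).index)
    [FiniteDimensional K M] [IsGalois K M] (hM : ∀ v : PrI K, v ≠ p → UnramAt M v)
    {c : M ≃ₐ[K] M} (hc : IsConj σ₂ M c) (χ₁ χ₂ : (M ≃ₐ[K] M) →* ℤˣ) (h1 : χ₁ c = 1)
    (h2 : χ₂ c = 1) (n1 : χ₁ ≠ 1) (n2 : χ₂ ≠ 1) : χ₁ = χ₂ := by
  obtain ⟨y₁, hy₁, hy₁0, e₁⟩ := exists_eig χ₁
  obtain ⟨y₂, hy₂, hy₂0, e₂⟩ := exists_eig χ₂
  obtain ⟨b₁, hb₁⟩ := exists_sq hy₁ e₁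
  obtain ⟨b₂, hb₂⟩ := exists_sq hy₂ e₂
  have hne : ∀ {y : ℝ} {b : K}, y ≠ 0 → y ^ 2 = algebraMap K ℝ b → b ≠ 0 := by
    rintro y b hy hb rfl
    rw [map_zero] at hb
    exact hy (pow_eq_zero_iff (by norm_num) |>.1 hb)
  have hb₁0 := hne hy₁0 hb₁
  have hb₂0 := hne hy₂0 hb₂
  have hpos : ∀ {y : ℝ} {b : K}, y ≠ 0 → y ^ 2 = algebraMap K ℝ b → 0 < algebraMap K ℝ b := by
    intro y b hy hb
    rw [← hb]
    exact lt_of_le_of_ne (sq_nonneg _) (Ne.symm (pow_ne_zero 2 hy))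
  have f₁ : act c y₁ = y₁ := by rw [e₁, h1]; simp
  have f₂ : act c y₂ = y₂ := by rw [e₂, h2]; simp
  have hsq := isSquare_or F hodd hb₁0 hb₂0 (hpos hy₁0 hb₁) (sq_pos_of_fix hc hy₁ f₁ hb₁0 hb₁)
    (hpos hy₂0 hb₂) (sq_pos_of_fix hc hy₂ f₂ hb₂0 hb₂)
    (fun P hP => sqAt_of_sqrt (hM P hP) hb₁0 hy₁ hb₁)
    (fun P hP => sqAt_of_sqrt (hM P hP) hb₂0 hy₂ hb₂)
  rcases hsq with ⟨s, hs⟩ | ⟨s, hs⟩ | ⟨s, hs⟩
  · exfalso
    apply n1
    refine MonoidHom.ext fun γ => ?_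
    refine eig_one hy₁0 (s := s) ?_ (e₁ γ)
    rw [hb₁, hs, map_mul, pow_two]
  · exfalso
    apply n2
    refine MonoidHom.ext fun γ => ?_
    refine eig_one hy₂0 (s := s) ?_ (e₂ γ)
    rw [hb₂, hs, map_mul, pow_two]
  · refine MonoidHom.ext fun γ => ?_
    have h3 : χ₁ γ * χ₂ γ = 1 := by
      refine eig_one (γ := γ) (mul_ne_zero hy₁0 hy₂0) (s := s) ?_ ?_
      · rw [mul_pow, hb₁, hb₂, ← map_mul, hs, map_mul, pow_two]
      · rw [act_mul γ hy₁ hy₂, e₁, e₂, Units.val_mul]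
        push_cast
        ring
    have h4 := mul_eq_one_iff_eq_inv.1 h3
    rw [h4, Int.units_inv_eq_self]

end uniq

end Pool.Agent.STt
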