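import Pool.Agent.Lib.MP_1ef7cf_nt_t.Mg.G003

/-!
# Units of norm `-1` and trace `2 a`, `a` odd: the levels
-/

set_option autoImplicit false

open NumberField IsDedekindDomain nonZeroDivisors IntermediateField

namespace Pool.Agent.STt

open Pool.Agent.ST Pool.Agent.STg Pool.Agent.STg.F

variable {K : Type*} [Field K] [NumberField K] [Algebra K ℝ] {σ₂ : K →+* ℝ} {e : (𝓞 K)ˣ}

lemma pow_one_mod (F : FD σ₂ e) {a : ℤ} (h : tre e = 2 * a) (ha : Odd a) (j n : ℕ) :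
    (2 : 𝓞 K) ^ j ∣ (e : 𝓞 K) ^ (2 ^ (j + 1) * n) - 1 := by
  obtain ⟨A, B, o, h1, -, -, hB, c, hc⟩ := pow_two_coord F h ha j
  have h2 : (2 : 𝓞 K) ^ j ∣ (e : 𝓞 K) ^ (2 ^ (j + 1)) - 1 := by
    have h3 : A - 1 = 2 ^ j * (2 * c) := by
      have h4 : 2 * (A - 1) = 2 * (2 ^ j * (2 * c)) := by rw [hc]; ring
      linarith
    refine ⟨(2 * c : 𝓞 K) + 2 * (o : 𝓞 K) * dl e a, ?_⟩
    have h3' : (A : 𝓞 K) - 1 = 2 ^ j * (2 * (c : 𝓞 K)) := by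
      have := congrArg (fun z : ℤ => (z : 𝓞 K)) h3
      push_cast at this
      exact this
    rw [h1, hB]
    push_cast
    linear_combination h3'
  rw [pow_mul]
  have h5 := sub_dvd_pow_sub_pow ((e : 𝓞 K) ^ (2 ^ (j + 1))) 1 n
  rw [one_pow] at h5
  exact h2.trans h5

lemma zpow_mod (F : FD σ₂ e) {a : ℤ} (h : tre e = 2 * a) (ha : Odd a) (j : ℕ) (z : ℤ) :
    ∃ i : ℕ, (2 : 𝓞 K) ^ j ∣ ((e ^ z : (𝓞 K)ˣ) : 𝓞 K) - (e : 𝓞 K) ^ i := by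
  rcases Int.eq_nat_or_neg z with ⟨n, rfl | rfl⟩
  · refine ⟨n, ?_⟩
    rw [zpow_natCast, Units.val_pow_eq_pow_val, sub_self]
    exact dvd_zero _
  · obtain ⟨M, hM⟩ : ∃ M, 2 ^ (j + 1) = M + 1 :=
      ⟨2 ^ (j + 1) - 1, by have := Nat.one_le_two_pow (n := j + 1); omega⟩
    refine ⟨M * n, ?_⟩
    have h1 := pow_one_mod F h ha j n
    have h2 : ((e ^ (-(n : ℤ)) : (𝓞 K)ˣ) : 𝓞 K) * (e : 𝓞 K) ^ (2 ^ (j + 1) * n) = (e : 𝓞 K) ^ (M * n) := by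
      rw [hM, add_mul, one_mul, pow_add, mul_comm ((e : 𝓞 K) ^ (M * n)), ← mul_assoc]
      have h3 : ((e ^ (-(n : ℤ)) : (𝓞 K)ˣ) : 𝓞 K) * (e : 𝓞 K) ^ n = 1 := by
        rw [← Units.val_pow_eq_pow_val, ← Units.val_mul, zpow_neg, zpow_natCast, inv_mul_cancel,
          Units.val_one]
      rw [h3, one_mul]
    have h3 : ((e ^ (-(n : ℤ)) : (𝓞 K)ˣ) : 𝓞 K) - (e : 𝓞 K) ^ (M * n) =
        (-((e ^ (-(n : ℤ)) : (𝓞 K)ˣ) : 𝓞 K)) * ((e : 𝓞 K) ^ (2 ^ (j + 1) * n) - 1) := by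
      rw [← h2]
      ring
    rw [h3]
    exact h1.mul_left _

/-- **The levels** for the units with trace `2 a`, `a` odd -/
theorem lev_two (F : FD σ₂ e) {a : ℤ} (h : tre e = 2 * a) (ha : Odd a) (j : ℕ) (hj : 4 ≤ j) :
    Lev e j (j + 1) := by
  refine ⟨hj, by omega, ?_, ?_⟩
  · intro b hb
    rw [Ideal.span_singleton_pow, Ideal.mem_span_singleton] at hb
    obtain ⟨x, hx⟩ := hb
    have h1 : b = 1 + (((2 : ℤ) ^ j : ℤ) : 𝓞 K) * x := by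
      push_cast
      linear_combination hx
    have h2 := norm_one_add F (2 ^ j) x
    rw [← h1] at h2
    obtain ⟨t, ht⟩ := (exists_coord F h ha x).1
    obtain ⟨j', rfl⟩ : ∃ j', j = j' + 1 := ⟨j - 1, by omega⟩
    rw [h2, ht]
    exact ⟨t + 2 ^ j' * Algebra.norm ℤ x, by ring⟩
  · intro b hb hN
    obtain ⟨t, ⟨z, hz⟩, ht⟩ := gen_unit F h ha (by omega) b hN
    obtain ⟨i, hi⟩ := zpow_mod F h ha j z
    refine ⟨i, ?_⟩
    rw [Ideal.span_singleton_pow, Ideal.mem_span_singleton, Ideal.mem_span_singleton]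
    rcases hz with rfl | rfl
    · left
      have h3 : b - (e : 𝓞 K) ^ i = (b - ((e ^ z : (𝓞 K)ˣ) : 𝓞 K)) +
          (((e ^ z : (𝓞 K)ˣ) : 𝓞 K) - (e : 𝓞 K) ^ i) := by ring
      rw [h3]
      exact dvd_add ht hi
    · right
      rw [Units.val_neg] at ht
      have h3 : b + (e : 𝓞 K) ^ i = (b - -((e ^ z : (𝓞 K)ˣ) : 𝓞 K)) -
          (((e ^ z : (𝓞 K)ˣ) : 𝓞 K) - (e : 𝓞 K) ^ i) := by ring
      rw [h3]
      exact dvd_sub ht hi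

/-- a norm `± 2 r`, `r` odd, is `± 6` modulo `16` if `a ≡ ± 3` modulo `8` -/
theorem norm_two (F : FD σ₂ e) {a : ℤ} (h : tre e = 2 * a) (ha : a % 8 = 3 ∨ a % 8 = 5) (b : 𝓞 K)
    {r : ℤ} (hr : Odd r) (hb : Algebra.norm ℤ b = 2 * r ∨ Algebra.norm ℤ b = -(2 * r)) :
    r % 8 = 3 ∨ r % 8 = 5 := by
  have hao : Odd a := by
    rw [Int.odd_iff]
    omega
  obtain ⟨u, w, y, hbe⟩ := exists_coord_mod F h hao b 4
  obtain ⟨q, hq⟩ := norm_add_mul F ((2 : ℤ) ^ 4) ((u : 𝓞 K) + (w : 𝓞 K) * dl e a) y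
  rw [norm_uw F h] at hq
  have hb2 : b = (u : 𝓞 K) + (w : 𝓞 K) * dl e a + (((2 : ℤ) ^ 4 : ℤ) : 𝓞 K) * y := by
    rw [hbe]; norm_num
  rw [← hb2] at hq
  -- `a ^ 2 + 1 = 10` modulo `16`
  obtain ⟨g, hg⟩ : ∃ g : ℤ, a ^ 2 + 1 = 16 * g + 10 := by
    rcases ha with ha | ha
    · obtain ⟨x, hx⟩ : ∃ x, a = 8 * x + 3 := ⟨a / 8, by omega⟩
      exact ⟨4 * x ^ 2 + 3 * x, by rw [hx]; ring⟩
    · obtain ⟨x, hx⟩ : ∃ x, a = 8 * x + 5 := ⟨a / 8, by omega⟩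
      exact ⟨4 * x ^ 2 + 5 * x + 1, by rw [hx]; ring⟩
  obtain ⟨r', hr'⟩ := hr
  rw [hg] at hq
  -- parity of the coordinates
  have hue : Even u := by
    by_contra hcon
    rw [Int.not_even_iff_odd] at hcon
    obtain ⟨x, hx⟩ := hcon
    have h3 : u ^ 2 - (16 * g + 10) * w ^ 2 + 2 ^ 4 * q = 2 * (2 * x ^ 2 + 2 * x - (8 * g + 5) * w ^ 2 + 8 * q) + 1 := by
      rw [hx]; ring
    rw [h3] at hq
    rcases hb with hb | hb <;> omega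
  obtain ⟨x, hx⟩ := hue
  have hwo : Odd w := by
    by_contra hcon
    rw [Int.not_odd_iff_even] at hcon
    obtain ⟨z, hz⟩ := hcon
    have h3 : u ^ 2 - (16 * g + 10) * w ^ 2 + 2 ^ 4 * q = 4 * (x ^ 2 - (16 * g + 10) * z ^ 2 + 4 * q) := by
      rw [hx, hz]; ring
    rw [h3] at hq
    rcases hb with hb | hb <;> omega
  obtain ⟨z, hz⟩ := hwo
  obtain ⟨v, hv⟩ := Int.even_mul_succ_self z
  have h3 : u ^ 2 - (16 * g + 10) * w ^ 2 + 2 ^ 4 * q =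
      4 * x ^ 2 - 10 + 16 * (q - g * w ^ 2) - 40 * (z * (z + 1)) := by
    rw [hx, hz]; ring
  rw [h3, hv] at hq
  rcases Int.even_or_odd x with ⟨s, hs⟩ | ⟨s, hs⟩
  · have h4 : 4 * x ^ 2 = 16 * s ^ 2 := by rw [hs]; ring
    rw [h4] at hq
    rcases hb with hb | hb <;> omega
  · have h4 : 4 * x ^ 2 = 16 * (s ^ 2 + s) + 4 := by rw [hs]; ring
    rw [h4] at hq
    rcases hb with hb | hb <;> omega

end Pool.Agent.STt
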