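import Pool.Agent.Lib.MP_1ef7cf_nt_c.Resid
import Pool.Agent.Lib.MP_1ef7cf_nt_g.F25

/-!
# Composites of unramified extensions
-/

set_option autoImplicit false

open NumberField IsDedekindDomain nonZeroDivisors IntermediateField

namespace Pool.Agent.STt

open Pool.Agent.ST

variable {K : Type*} [Field K] [NumberField K] [Algebra K ℝ]

/-- `L / K` is unramified at all primes above `v`. -/
def UnramAt (L : IntermediateField K ℝ) (v : PrI K) : Prop :=
  ∀ (P : Ideal (𝓞 L)) [P.IsPrime], P.under (𝓞 K) = v.asIdeal → Algebra.IsUnramifiedAt (𝓞 K) P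

lemma UnramAt.at {L : IntermediateField K ℝ} {v : PrI K} (h : UnramAt L v) (P : PrI L)
    (hP : und K P = v) : Algebra.IsUnramifiedAt (𝓞 K) P.asIdeal := by
  have := P.isPrime
  exact h P.asIdeal (by rw [← hP]; rfl)

/-- an element of the inertia group is trivial on an unramified subextension -/
lemma res_inertia {L M : IntermediateField K ℝ} [FiniteDimensional K L] [FiniteDimensional K M]
    [IsGalois K L] [IsGalois K M] (h : L ≤ M) {v : PrI K} (hL : UnramAt L v) (P : PrI M)
    (hP : und K P = v) (γ : M ≃ₐ[K] M) (hγ : ∀ x : 𝓞 M, γ • x - x ∈ P.asIdeal) :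
    res h γ = 1 := by
  have := numberField_of_fd L
  have := numberField_of_fd M
  obtain ⟨φ, hφ⟩ := exists_isFrob (K := K) P
  obtain ⟨P₁, hP₁, -, hres⟩ := isFrob_res h P
  have h1 : IsFrob K P (γ * φ) := by
    intro x
    have e : (γ * φ) • x - x ^ pn (und K P) =
        (γ • (φ • x) - φ • x) + (φ • x - x ^ pn (und K P)) := by
      rw [mul_smul]; ring
    rw [e]
    exact P.asIdeal.add_mem (hγ _) (hφ x)
  have hun : Algebra.IsUnramifiedAt (𝓞 K) P₁.asIdeal := hL.at P₁ (hP₁.trans hP)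
  have h2 := isFrob_unique (hres _ hφ) (hres _ h1)
  rw [map_mul] at h2
  exact (mul_eq_right.1 h2.symm)

theorem unram_sup {L₁ L₂ M : IntermediateField K ℝ} [FiniteDimensional K L₁] [IsGalois K L₁]
    [FiniteDimensional K L₂] [IsGalois K L₂] [FiniteDimensional K M] [IsGalois K M]
    (hM : M ≤ L₁ ⊔ L₂) (hl1 : L₁ ≤ M) (hl2 : L₂ ≤ M) {v : PrI K}
    (h1 : UnramAt L₁ v) (h2 : UnramAt L₂ v) : UnramAt M v := by
  have := numberField_of_fd L₁
  have := numberField_of_fd L₂
  have := numberField_of_fd M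
  intro P hPp hP
  have hne : P ≠ ⊥ := by
    rintro rfl
    apply v.ne_bot
    rw [← hP, Ideal.under, Ideal.comap_bot_of_injective]
    exact FaithfulSMul.algebraMap_injective _ _
  set P' : PrI M := ⟨P, hPp, hne⟩ with hP'
  have hPv : und K P' = v := HeightOneSpectrum.ext hP
  haveI : P.LiesOver v.asIdeal := ⟨hP.symm⟩
  haveI := v.isPrime
  haveI := v.isMaximal
  haveI : Finite (𝓞 K ⧸ v.asIdeal) := Ideal.finiteQuotientOfFreeOfNeBot v.asIdeal v.ne_bot
  haveI : Finite v.asIdeal.ResidueField := inferInstance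
  have h3 := Ideal.card_inertia_eq_ramificationIdxIn (G := M ≃ₐ[K] M) v.asIdeal P
  have htriv : ∀ γ : M ≃ₐ[K] M, (∀ x : 𝓞 M, γ • x - x ∈ P) → γ = 1 := by
    intro γ hγ
    have e1 := res_inertia hl1 h1 P' hPv γ hγ
    have e2 := res_inertia hl2 h2 P' hPv γ hγ
    rw [res_eq_one_iff] at e1 e2
    apply eq_of_eq_on_sup hM hl1 hl2
    · intro x hx
      rw [e1 x hx, act_one_left (hl1 hx)]
    · intro x hx
      rw [e2 x hx, act_one_left (hl2 hx)]
  have h4 : Nat.card (P.inertia (M ≃ₐ[K] M)) = 1 := by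
    rw [Nat.card_eq_one_iff_unique]
    refine ⟨⟨fun a b => ?_⟩, ⟨1⟩⟩
    apply Subtype.ext
    rw [htriv a.1 a.2, htriv b.1 b.2]
  rw [h4, Ideal.ramificationIdxIn_eq_ramificationIdx v.asIdeal P (M ≃ₐ[K] M)] at h3
  exact Ideal.ramificationIdx_eq_one_iff.1 h3.symm

lemma UnramAt.of_le {L M : IntermediateField K ℝ} [FiniteDimensional K L] [FiniteDimensional K M]
    (h : L ≤ M) {v : PrI K} (hM : UnramAt M v) : UnramAt L v := by
  have := numberField_of_fd L
  have := numberField_of_fd M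
  let _ : Algebra L M := (inclusion h).toAlgebra
  have : IsScalarTower K L M := IsScalarTower.of_algebraMap_eq' rfl
  intro P hPp hP
  have hne : P ≠ ⊥ := by
    rintro rfl
    apply v.ne_bot
    rw [← hP, Ideal.under, Ideal.comap_bot_of_injective]
    exact FaithfulSMul.algebraMap_injective _ _
  set P' : PrI L := ⟨P, hPp, hne⟩ with hP'
  obtain ⟨Q, hQ⟩ := exists_ovr (K := L) (L := M) P'
  have h1 : und K Q = v := by
    rw [← und_und (E₁ := L) Q, hQ]
    exact HeightOneSpectrum.ext hP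
  have h2 := hM.at Q h1
  have h3 : Algebra.IsUnramifiedAt (𝓞 K) (und L Q).asIdeal := unramified_und Q
  rw [hQ] at h3
  exact h3

/-- square roots in an extension which is unramified at `v` have even valuation at `v` -/
lemma sqAt_of_sqrt {M : IntermediateField K ℝ} [FiniteDimensional K M] {v : PrI K}
    (hM : UnramAt M v) {b : K} (hb : b ≠ 0) {y : ℝ} (hy : y ∈ M)
    (hyb : y ^ 2 = algebraMap K ℝ b) : STb.SqAt v b := by
  have := numberField_of_fd M
  obtain ⟨P, hP⟩ := exists_ovr (K := K) (L := M) v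
  have hun := hM.at P hP
  have h1 := STc.sqAt_of_unram (P := P) hb (y := (⟨y, hy⟩ : M)) (by
    apply Subtype.ext
    exact hyb)
  rwa [hP] at h1

end Pool.Agent.STt
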