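import Pool.Agent.Lib.MP_1ef7cf_nt_t.Fin
import Pool.Agent.Lib.MP_1ef7cf_nt_t.Mg.G002

/-!
# Summary: all real abelian extensions of `2`-power degree which are unramified outside `2`
-/

set_option autoImplicit false

open NumberField IsDedekindDomain nonZeroDivisors IntermediateField

namespace Pool.Agent.STt

open Pool.Agent.ST Pool.Agent.STb

variable {K : Type*} [Field K] [NumberField K] [Algebra K ℝ] {σ₂ : K →+* ℝ} {e : (𝓞 K)ˣ}

/-- the extensions of `2`-power degree which are unramified outside `2` -/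
theorem fin_two (hK : Module.finrank ℚ K = 2) (hσ : σ₂ ≠ algebraMap K ℝ)
    (he : 0 < algebraMap K ℝ ((e : 𝓞 K) : K)) (hN : Algebra.norm ℤ (e : 𝓞 K) = -1)
    {m : Ideal (𝓞 K)} (hm0 : m ≠ ⊥)
    (hm : ∀ v : HeightOneSpectrum (𝓞 K), (2 : 𝓞 K) ∈ v.asIdeal → v.asIdeal ∣ m)
    {p : HeightOneSpectrum (𝓞 K)} (hp : ∀ v : HeightOneSpectrum (𝓞 K), (2 : 𝓞 K) ∈ v.asIdeal → v = p)
    (hodd : Odd (Subgroup.zpowers (ClassGroup.mk0 (P0 p))).index)
    {H : IntermediateField K ℝ} {Art : ST.RayClassGroup σ₂ m ≃* (H ≃ₐ[K] H)}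
    (hA : ST.IsRayClassField σ₂ m H Art) {L : IntermediateField K ℝ} (hLH : L ≤ H) {a : ℕ}
    (ha : Module.finrank K L = 2 ^ a)
    (hL : ∀ v : HeightOneSpectrum (𝓞 K), (2 : 𝓞 K) ∉ v.asIdeal → UnramAt L v) :
    StarkRQ.StarkTateIn σ₂ m L := by
  obtain ⟨D⟩ := STg.exists_lemData
  have F := STg.fd_of_norm hK hσ he hN
  have hfd := hA.finite
  have hab : IsAbelianGalois K H := hA.isRCF.abelian
  have habL : IsAbelianGalois K L := isAbelianGalois_of_le hLH
  have hfdL : FiniteDimensional K L := fd_of_le hLH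
  exact starkTateIn_general D F hm hm0 hA (a + 3) hLH (le_Lf F hp hodd ha hL)

end Pool.Agent.STt
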