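import Pool.Agent.Lib.MP_1ef7cf_nt_g.Mg.G072
import Pool.Agent.Lib.MP_1ef7cf_nt_t.Mg.G002

/-!
# Summary: Q1 for the moduli with the same prime divisors as `2`
-/

set_option autoImplicit false

open NumberField IsDedekindDomain nonZeroDivisors IntermediateField

namespace Pool.Agent.STt

open Pool.Agent.STg Pool.Agent.STg.F

variable {K : Type*} [Field K] [NumberField K] [Algebra K ℝ] {σ₂ : K →+* ℝ} {e : (𝓞 K)ˣ}

/-- Q1 for the moduli with the same prime divisors as `2` -/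
theorem fin_q (hK : Module.finrank ℚ K = 2) (hσ : σ₂ ≠ algebraMap K ℝ)
    (he : 0 < algebraMap K ℝ ((e : 𝓞 K) : K)) (hN : Algebra.norm ℤ (e : 𝓞 K) = -1)
    (hT : (¬ (4 : ℤ) ∣ Algebra.trace ℤ (𝓞 K) (e : 𝓞 K) ∧
        (|Algebra.trace ℤ (𝓞 K) (e : 𝓞 K)| ≤ 3 ∨ IsPrincipalIdealRing (𝓞 K))) ∨
      ((Algebra.trace ℤ (𝓞 K) (e : 𝓞 K) % 16 = 6 ∨ Algebra.trace ℤ (𝓞 K) (e : 𝓞 K) % 16 = 10) ∧
        Nat.card (ClassGroup (𝓞 K)) = 2))
    {m : Ideal (𝓞 K)} (hm0 : m ≠ ⊥)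
    (hm : ∀ v : HeightOneSpectrum (𝓞 K), v.asIdeal ∣ m ↔ (2 : 𝓞 K) ∈ v.asIdeal) :
    StarkRQ.StarkTate σ₂ m := by
  have F := fd_of_norm hK hσ he hN
  obtain ⟨D⟩ := exists_lemData
  rcases hT with ⟨h4, hP⟩ | ⟨h16, hcl⟩
  · rcases Int.even_or_odd (Algebra.trace ℤ (𝓞 K) (e : 𝓞 K)) with ⟨a, ha⟩ | hodd
    · have ha2 : tre e = 2 * a := by
        have : tre e = Algebra.trace ℤ (𝓞 K) (e : 𝓞 K) := rfl
        omega
      have hao : Odd a := by
        rw [← Int.not_even_iff_odd]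
        rintro ⟨b, hb⟩
        apply h4
        rw [ha, hb]
        exact ⟨b, by ring⟩
      have hPID : IsPrincipalIdealRing (𝓞 K) := by
        rcases hP with h | h
        · exact pid_small F h
        · exact h
      exact starkTate_main' D F (prin8_of_pid hPID) (a := 1)
        (fun j hj => lev_two F ha2 hao j hj) hm hm0
    · exact fin_full hK hσ he hN (Or.inl hodd) hP.symm hm0 hm
  · have hT : tre e = Algebra.trace ℤ (𝓞 K) (e : 𝓞 K) := rfl
    have ha2 : tre e = 2 * (tre e / 2) := by omega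
    have ha8 : (tre e / 2) % 8 = 3 ∨ (tre e / 2) % 8 = 5 := by omega
    have hao : Odd (tre e / 2) := by
      rw [Int.odd_iff]
      omega
    exact starkTate_main' D F (prin8_of_two F ha2 ha8 hcl) (a := 1)
      (fun j hj => lev_two F ha2 hao j hj) hm hm0

end Pool.Agent.STt
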